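import Pool.Agent.Run7.h500.RD.Stm

/-!
Piece LOC of project RD (helper942).
-/

set_option autoImplicit false
open MeasureTheory Filter Topology Set

namespace Pool.Agent.Run7.h942.RD

open Pool.Agent.Run7.h500.RD

theorem t_LOC : S_LOC := by
  intro hVD hVB hFLIP hBND hHOL hVERT hLIM hFUB hGLUE f m k C hf c hc a hLI
  obtain ⟨δ, hδ, hint⟩ := hLI
  refine ⟨δ, hδ, ?_⟩
  set g : ℝ × (ℝ × ℝ) → ℝ := fun t => f t.2 / (1 + |t.2.1 - t.1 * t.2.2|) ^ k with hg
  have hI : Integrable g (((volume : Measure ℝ).restrict (Ioo (a - δ) (a + δ))).prod (volume : Measure (ℝ × ℝ))) := by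
    have h1 := Measure.prod_restrict (μ := (volume : Measure ℝ)) (ν := (volume : Measure (ℝ × ℝ)))
      (Ioo (a - δ) (a + δ)) (univ : Set (ℝ × ℝ))
    rw [Measure.restrict_univ] at h1
    rw [h1]
    exact hint
  have hN : ∀ b : ℝ, N f k b = ∫ z : ℝ × ℝ, ‖g (b, z)‖ := by
    intro b
    unfold N
    refine integral_congr_ae (Filter.Eventually.of_forall fun z => ?_)
    simp only [hg]
    have h2 : 0 < 1 + |z.1 - b * z.2| := by positivity
    rw [norm_div, Real.norm_eq_abs, norm_pow, Real.norm_eq_abs, abs_of_pos h2]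
  have hW : ∀ᵐ b : ℝ ∂((volume : Measure ℝ).restrict (Ioo (a - δ) (a + δ))), WI f k b := by
    filter_upwards [hI.prod_right_ae] with b hb
    exact hb
  have hNI : Integrable (fun b : ℝ => N f k b) ((volume : Measure ℝ).restrict (Ioo (a - δ) (a + δ))) := by
    have h3 := hI.integral_norm_prod_left
    exact h3.congr (Filter.Eventually.of_forall fun b => (hN b).symm)
  refine hGLUE (V f k c) (a - δ) (a + δ) (fun b => ((1 + ‖c‖) / c.im + 1) ^ k * N f k b) (by linarith)
    (hVD hFLIP hBND hHOL f m k C hf c hc) (hNI.const_mul _) ?_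
  rw [ae_restrict_iff' measurableSet_Ioo] at hW
  filter_upwards [hW] with b hb hbI
  obtain ⟨h4, h5⟩ := hVB hVERT hLIM hFUB f m k C hf c hc b (hb hbI)
  exact ⟨fun η hη _ => h4 η hη, _, h5⟩

end Pool.Agent.Run7.h942.RD
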